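import Mathlib
import Pool.Agent.H798.BV.Stm
import Pool.Agent.H798.BV.Stm4
import Pool.Agent.H798.BV.Stm5

set_option autoImplicit false
set_option maxHeartbeats 4000000

/-!
# MP_172a45_an: (LG) from (TR), (GAY)
-/

open MeasureTheory Set

namespace Pool.Agent.H351.BV

open Pool.Agent.H798.BV

theorem exp_sub_one (ζ : ℂ) (M : ℝ) (hM : 0 ≤ M) (h : ζ.re ≤ M) :
    ‖Complex.exp ζ - 1‖ ≤ Real.exp M * ‖ζ‖ := by
  have := Convex.norm_image_sub_le_of_norm_deriv_le (𝕜 := ℂ) (f := Complex.exp) (C := Real.exp M)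
    (s := {z : ℂ | z.re ≤ M}) (x := 0) (y := ζ)
    (fun z _ => Complex.differentiableAt_exp)
    (fun z hz => by
      rw [Complex.deriv_exp, Complex.norm_exp]
      exact Real.exp_le_exp.mpr hz)
    (convex_halfSpace_re_le M) (by simpa using hM) h
  simpa using this

theorem prod_norm_le {n : ℕ} (l : Fin n → ℂ) (B : Finset (Fin n)) (x : ℝ) (hx : 0 ≤ x) :
    ‖∏ k ∈ B, (1 - (x : ℂ) * l k)‖ ≤ Real.exp (x * ∑ k ∈ B, ‖l k‖) := by
  rw [norm_prod, Finset.mul_sum, Real.exp_sum]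
  refine Finset.prod_le_prod (fun _ _ => norm_nonneg _) fun k _ => ?_
  calc ‖1 - (x : ℂ) * l k‖ ≤ ‖(1:ℂ)‖ + ‖(x : ℂ) * l k‖ := norm_sub_le _ _
    _ = 1 + x * ‖l k‖ := by rw [norm_one, norm_mul, Complex.norm_real, Real.norm_of_nonneg hx]
    _ ≤ Real.exp (x * ‖l k‖) := by linarith [Real.add_one_le_exp (x * ‖l k‖)]

theorem model_re (s : ℂ) (Y x : ℝ) :
    (-((x : ℂ) * s) - (x : ℂ) ^ 2 * Y / 2).re = -(x * s.re) - x ^ 2 * Y / 2 := by
  have h2 : ((x : ℂ) ^ 2 * Y / 2) = ((x ^ 2 * Y / 2 : ℝ) : ℂ) := by push_cast; ring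
  rw [h2, Complex.sub_re, Complex.neg_re, Complex.re_ofReal_mul, Complex.ofReal_re]

theorem model_le {n : ℕ} (l : Fin n → ℂ) (B : Finset (Fin n)) (s : ℂ) (κ Y x : ℝ) (hκ : κ < 1)
    (hs : 0 ≤ s.re) (hB : ∑ k ∈ B, ‖l k‖ ≤ κ * s.re) (hY : 1 / 5 ≤ Y) (hx : 0 ≤ x) :
    ‖∏ k ∈ B, (1 - (x : ℂ) * l k)‖ * ‖Complex.exp (-((x : ℂ) * s) - (x : ℂ) ^ 2 * Y / 2)‖ ≤
      Real.exp (-(1 / 10) * x ^ 2) := by
  rw [Complex.norm_exp, model_re]
  refine le_trans (mul_le_mul_of_nonneg_right (prod_norm_le l B x hx) (Real.exp_pos _).le) ?_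
  rw [← Real.exp_add]
  refine Real.exp_le_exp.mpr ?_
  have h1 : x * ∑ k ∈ B, ‖l k‖ ≤ x * s.re := by
    refine mul_le_mul_of_nonneg_left (hB.trans ?_) hx
    nlinarith
  have h2 : x ^ 2 * (1 / 5) ≤ x ^ 2 * Y := mul_le_mul_of_nonneg_left hY (sq_nonneg x)
  linarith

theorem tail (R : ℝ) (hR : 0 ≤ R) :
    ∫ x in Ioi R, Real.exp (-(1 / 10) * x ^ 2) ≤ 4 * Real.exp (-(R ^ 2 / 20)) := by
  have i10 : Integrable fun x : ℝ => Real.exp (-(1 / 10) * x ^ 2) :=
    integrable_exp_neg_mul_sq (by norm_num)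
  have i20 : Integrable fun x : ℝ => Real.exp (-(1 / 20) * x ^ 2) :=
    integrable_exp_neg_mul_sq (by norm_num)
  have h1 : ∫ x in Ioi R, Real.exp (-(1 / 10) * x ^ 2) ≤
      ∫ x in Ioi R, Real.exp (-(R ^ 2 / 20)) * Real.exp (-(1 / 20) * x ^ 2) := by
    refine setIntegral_mono_on i10.integrableOn (i20.const_mul _).integrableOn measurableSet_Ioi
      fun x hx => ?_
    rw [← Real.exp_add]
    refine Real.exp_le_exp.mpr ?_
    have hx' : R < x := hx
    nlinarith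
  have h2 : ∫ x in Ioi R, Real.exp (-(1 / 20) * x ^ 2) ≤
      ∫ x in Ioi (0:ℝ), Real.exp (-(1 / 20) * x ^ 2) :=
    setIntegral_mono_set i20.integrableOn (Filter.Eventually.of_forall fun x => (Real.exp_pos _).le)
      (Ioi_subset_Ioi hR).eventuallyLE
  rw [integral_const_mul] at h1
  rw [integral_gaussian_Ioi] at h2
  have h3 : √(Real.pi / (1 / 20)) ≤ 8 := by
    rw [Real.sqrt_le_left (by norm_num)]
    have := Real.pi_lt_d2
    norm_num
    linarith
  calc _ ≤ _ := h1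
    _ ≤ Real.exp (-(R ^ 2 / 20)) * 4 := by
        refine mul_le_mul_of_nonneg_left ?_ (Real.exp_pos _).le
        linarith
    _ = _ := mul_comm _ _

theorem diff_int (D R : ℝ) (hD : 0 ≤ D) :
    ∫ x in (0:ℝ)..R, D / 2 * ((x + x ^ 3) * Real.exp (-(1 / 13) * x ^ 2)) ≤ 200 * D := by
  have h1 : ∀ x ∈ uIcc (0:ℝ) R, HasDerivAt
      (fun x : ℝ => -(D / 2) * ((91 + 13 / 2 * x ^ 2) * Real.exp (-(1 / 13) * x ^ 2)))
      (D / 2 * ((x + x ^ 3) * Real.exp (-(1 / 13) * x ^ 2))) x := by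
    intro x _
    have e1 : HasDerivAt (fun x : ℝ => 91 + 13 / 2 * x ^ 2) (13 / 2 * (2 * x)) x := by
      have := (((hasDerivAt_id' x).pow 2).const_mul (13 / 2 : ℝ)).const_add 91
      refine this.congr_deriv ?_
      simp
    have e2 : HasDerivAt (fun x : ℝ => -(1 / 13) * x ^ 2) (-(1 / 13) * (2 * x)) x := by
      have := ((hasDerivAt_id' x).pow 2).const_mul (-(1 / 13) : ℝ)
      refine this.congr_deriv ?_
      simp
    have e3 := (e1.mul e2.exp).const_mul (-(D / 2))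
    refine e3.congr_deriv ?_
    ring
  rw [intervalIntegral.integral_eq_sub_of_hasDerivAt h1
    (Continuous.intervalIntegrable (by fun_prop) _ _)]
  have h2 : 0 ≤ D / 2 * ((91 + 13 / 2 * R ^ 2) * Real.exp (-(1 / 13) * R ^ 2)) := by positivity
  have h3 : Real.exp (-(1 / 13) * (0:ℝ) ^ 2) = 1 := by simp
  rw [h3]
  linarith

/-- (LG) -/
theorem t_LG (h1 : S_TR) (h2 : S_GAY) : S_LG := by
  intro K L hK hL
  obtain ⟨c, hc, hG⟩ := h2 K L hK hL
  refine ⟨c, hc, ?_⟩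
  intro m l κ ρ hm hκ0 hκ1 hρ hρ1 hl hs hs0 hB hY
  have hm0 : (0:ℝ) < m := by exact_mod_cast hm
  set q : ℝ := Real.sqrt m with hq
  have hq0 : 0 < q := Real.sqrt_pos.mpr hm0
  have hq2 : q * q = m := Real.mul_self_sqrt hm0.le
  have hqc : ((q : ℝ) : ℂ) ≠ 0 := by exact_mod_cast hq0.ne'
  have hmc : ((m : ℕ) : ℂ) = (q : ℂ) * q := by exact_mod_cast hq2.symm
  have hL0 : 0 < L := by linarith
  set B : Finset (Fin m) := Finset.univ.filter (fun k => L < ‖l k‖) with hBdef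
  set A : Finset (Fin m) := Finset.univ.filter (fun k => ¬ L < ‖l k‖) with hAdef
  have hsR : sR L l = (∑ k ∈ A, l k) / m := rfl
  have hyR : yR L l = (∑ k ∈ A, l k ^ 2) / m := rfl
  have hbB : bB L l = (∑ k ∈ B, ‖l k‖) / m := rfl
  set s : ℂ := sR L l with hsdef
  set Y : ℂ := yR L l with hYdef
  have hmne : ((m : ℕ) : ℂ) ≠ 0 := by exact_mod_cast hm0.ne'
  have hsA : ∑ k ∈ A, l k = m * s := by
    rw [hsR, mul_div_cancel₀ _ hmne]
  have hYA : ∑ k ∈ A, l k ^ 2 = m * Y := by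
    rw [hyR, mul_div_cancel₀ _ hmne]
  have hAL : ∀ k ∈ A, ‖l k‖ ≤ L := by
    intro k hk
    rw [hAdef, Finset.mem_filter] at hk
    exact not_lt.mp hk.2
  have hAs : ∑ k ∈ A, ‖l k‖ ≤ m :=
    le_trans (Finset.sum_le_sum_of_subset_of_nonneg (Finset.subset_univ _)
      fun _ _ _ => norm_nonneg _) hl
  have hYL : ‖Y‖ ≤ L := by
    rw [hyR, norm_div, Complex.norm_natCast, div_le_iff₀ hm0]
    calc ‖∑ k ∈ A, l k ^ 2‖ ≤ ∑ k ∈ A, ‖l k ^ 2‖ := norm_sum_le _ _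
      _ ≤ ∑ k ∈ A, L * ‖l k‖ := Finset.sum_le_sum fun k hk => by
          rw [norm_pow, sq]
          exact mul_le_mul_of_nonneg_right (hAL k hk) (norm_nonneg _)
      _ = L * ∑ k ∈ A, ‖l k‖ := by rw [Finset.mul_sum]
      _ ≤ L * m := mul_le_mul_of_nonneg_left hAs hL0.le
  -- the rescaled quantities
  set lam : Fin m → ℂ := fun k => l k / q with hlam
  set σ : ℂ := (q : ℂ) * s with hσ
  have hσre : σ.re = q * s.re := by rw [hσ, Complex.re_ofReal_mul]
  have hσ0 : 0 ≤ σ.re := by rw [hσre]; positivity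
  have hσK : ‖σ‖ ≤ K := by
    rw [hσ, norm_mul, Complex.norm_real, Real.norm_of_nonneg hq0.le]
    exact hs
  have hlB : ∑ k ∈ B, ‖lam k‖ ≤ κ * σ.re := by
    have e : ∑ k ∈ B, ‖lam k‖ = (∑ k ∈ B, ‖l k‖) / q := by
      rw [Finset.sum_div]
      refine Finset.sum_congr rfl fun k _ => ?_
      rw [hlam]
      simp only [norm_div, Complex.norm_real, Real.norm_of_nonneg hq0.le]
    rw [e, hσre, div_le_iff₀ hq0]
    rw [hbB, div_le_iff₀ hm0] at hB
    calc _ ≤ _ := hB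
      _ = _ := by rw [← hq2]; ring
  have hY1 : Y.re ≤ L := (Complex.re_le_norm Y).trans hYL
  have hmain := hG m lam B σ κ Y.re hκ0 hκ1 hσ0 hσK hlB hY hY1
  -- the model and the product
  set g : ℝ → ℂ := fun x => (∏ k ∈ B, (1 - (x : ℂ) * lam k)) *
    Complex.exp (-((x : ℂ) * σ) - (x : ℂ) ^ 2 * Y.re / 2) with hg
  set f : ℝ → ℂ := fun x => ∏ k, (1 - ((x / q : ℝ) : ℂ) * l k) with hf
  have hgc : Continuous g := by
    rw [hg]
    fun_prop
  have hfc : Continuous f := by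
    rw [hf]
    fun_prop
  have hgle : ∀ x : ℝ, 0 ≤ x → ‖g x‖ ≤ Real.exp (-(1 / 10) * x ^ 2) := by
    intro x hx
    rw [hg]
    simp only [norm_mul]
    exact model_le lam B σ κ Y.re x hκ1 hσ0 hlB hY hx
  have i10 : Integrable fun x : ℝ => Real.exp (-(1 / 10) * x ^ 2) :=
    integrable_exp_neg_mul_sq (by norm_num)
  have hgi : IntegrableOn g (Ioi 0) := by
    refine Integrable.mono' i10.integrableOn hgc.aestronglyMeasurable ?_
    filter_upwards [ae_restrict_mem measurableSet_Ioi] with x hx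
    exact hgle x (le_of_lt hx)
  set R : ℝ := q * ρ with hRdef
  have hR0 : 0 < R := mul_pos hq0 hρ
  have hgiR : IntegrableOn g (Ioi R) := hgi.mono_set (Ioi_subset_Ioi hR0.le)
  have hsplit : ∫ x in Ioi (0:ℝ), g x = (∫ x in (0:ℝ)..R, g x) + ∫ x in Ioi R, g x := by
    rw [intervalIntegral.integral_interval_add_Ioi hgi hgiR]
  have htail : ‖∫ x in Ioi R, g x‖ ≤ 4 * Real.exp (-(m * ρ ^ 2 / 20)) := by
    have t1 : ‖∫ x in Ioi R, g x‖ ≤ ∫ x in Ioi R, Real.exp (-(1 / 10) * x ^ 2) := by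
      refine norm_integral_le_of_norm_le i10.integrableOn ?_
      filter_upwards [ae_restrict_mem measurableSet_Ioi] with x hx
      exact hgle x (hR0.le.trans (le_of_lt hx))
    have t2 := tail R hR0.le
    have t3 : R ^ 2 = m * ρ ^ 2 := by rw [hRdef, ← hq2]; ring
    rw [t3] at t2
    exact t1.trans t2
  -- pointwise difference
  set D : ℝ := |Y.im| + L ^ 2 / q with hD
  have hD0 : 0 ≤ D := by positivity
  have hdiff : ∀ x : ℝ, 0 ≤ x → x ≤ R →
      ‖f x - g x‖ ≤ D / 2 * ((x + x ^ 3) * Real.exp (-(1 / 13) * x ^ 2)) := by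
    intro x hx hxR
    set τ : ℝ := x / q with hτ
    have hτ0 : 0 ≤ τ := div_nonneg hx hq0.le
    have hτρ : τ ≤ ρ := by
      rw [hτ, div_le_iff₀ hq0, mul_comm]
      exact hxR
    have hx1 : x = τ * q := by rw [hτ]; field_simp
    have hxc : (x : ℂ) = (τ : ℂ) * q := by exact_mod_cast hx1
    have hL2 : ρ * (24 * L ^ 2) ≤ 1 := by
      rwa [le_div_iff₀ (by positivity)] at hρ1
    have hL3 : τ * (24 * L ^ 2) ≤ 1 := le_trans (mul_le_mul_of_nonneg_right hτρ (by positivity)) hL2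
    have hτL : ‖(τ : ℂ)‖ * L ≤ 1 / 4 := by
      rw [Complex.norm_real, Real.norm_of_nonneg hτ0]
      nlinarith
    obtain ⟨E, hE, hp⟩ := h1 m l A L (τ : ℂ) hL0 hAL hAs hτL
    rw [Complex.norm_real, Real.norm_of_nonneg hτ0] at hE
    set ζ : ℂ := -(((x ^ 2 / 2 : ℝ) : ℂ) * (Complex.I * Y.im)) + E with hζ
    have hp2 : ∏ k ∈ A, (1 - (τ : ℂ) * l k) =
        Complex.exp (-((x : ℂ) * σ) - (x : ℂ) ^ 2 * Y.re / 2) * Complex.exp ζ := by
      rw [hp, ← Complex.exp_add]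
      congr 1
      have hYe : Y = Y.re + Complex.I * Y.im := by
        conv_lhs => rw [← Complex.re_add_im Y]
        ring
      rw [hsA, hYA, hζ, hσ, hmc]
      have e1 : (τ : ℂ) ^ 2 * ((q : ℂ) * q * Y) / 2 = (x : ℂ) ^ 2 * Y / 2 := by
        rw [hxc]; ring
      have e2 : (τ : ℂ) * ((q : ℂ) * q * s) = (x : ℂ) * ((q : ℂ) * s) := by
        rw [hxc]; ring
      rw [e1, e2]
      have e3 : (x : ℂ) ^ 2 * Y / 2 = (x : ℂ) ^ 2 * Y.re / 2 +
          (((x ^ 2 / 2 : ℝ) : ℂ) * (Complex.I * Y.im)) := by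
        conv_lhs => rw [hYe]
        push_cast
        ring
      rw [e3]
      ring
    have hEx : ‖E‖ ≤ x ^ 3 / 2 * (L ^ 2 / q) := by
      refine hE.trans (le_of_eq ?_)
      rw [hx1, ← hq2]
      field_simp
    have hEx2 : ‖E‖ ≤ x ^ 2 / 48 := by
      refine hE.trans ?_
      rw [hx1, ← hq2]
      have : q * q * τ ^ 3 * L ^ 2 / 2 = (τ * q) ^ 2 / 48 * (τ * (24 * L ^ 2)) := by ring
      rw [this]
      exact mul_le_of_le_one_right (by positivity) hL3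
    have hζre : ζ.re ≤ x ^ 2 / 48 := by
      have e : ζ.re = E.re := by
        rw [hζ, Complex.add_re, Complex.neg_re, Complex.re_ofReal_mul]
        simp
      rw [e]
      exact (Complex.re_le_norm E).trans hEx2
    have hζn : ‖ζ‖ ≤ x ^ 2 / 2 * |Y.im| + x ^ 3 / 2 * (L ^ 2 / q) := by
      rw [hζ]
      refine (norm_add_le _ _).trans (add_le_add (le_of_eq ?_) hEx)
      rw [norm_neg, norm_mul, Complex.norm_real, norm_mul, Complex.norm_I, one_mul,
        Complex.norm_real, Real.norm_of_nonneg (by positivity), Real.norm_eq_abs]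
    have hζD : ‖ζ‖ ≤ (x + x ^ 3) / 2 * D := by
      have a1 : x ^ 2 / 2 ≤ (x + x ^ 3) / 2 := by nlinarith [mul_nonneg hx (sq_nonneg (x - 1))]
      have a2 : x ^ 3 / 2 ≤ (x + x ^ 3) / 2 := by linarith
      rw [hD, mul_add]
      exact hζn.trans (add_le_add (mul_le_mul_of_nonneg_right a1 (abs_nonneg _))
        (mul_le_mul_of_nonneg_right a2 (by positivity)))
    have hexp := exp_sub_one ζ (x ^ 2 / 48) (by positivity) hζre
    have hfx : f x = (∏ k ∈ B, (1 - (x : ℂ) * lam k)) * ∏ k ∈ A, (1 - (τ : ℂ) * l k) := by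
      rw [hf]
      simp only
      rw [← Finset.prod_filter_mul_prod_filter_not Finset.univ (fun k => L < ‖l k‖)]
      congr 1
      refine Finset.prod_congr rfl fun k _ => ?_
      rw [hlam]
      simp only
      rw [hxc, ← hτ]
      field_simp
    have hfg : f x - g x = (∏ k ∈ B, (1 - (x : ℂ) * lam k)) *
        Complex.exp (-((x : ℂ) * σ) - (x : ℂ) ^ 2 * Y.re / 2) * (Complex.exp ζ - 1) := by
      rw [hfx, hp2, hg]
      ring
    have hml := model_le lam B σ κ Y.re x hκ1 hσ0 hlB hY hx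
    rw [hfg, norm_mul, norm_mul]
    calc _ ≤ Real.exp (-(1 / 10) * x ^ 2) * (Real.exp (x ^ 2 / 48) * ((x + x ^ 3) / 2 * D)) := by
          refine mul_le_mul hml (hexp.trans ?_) (norm_nonneg _) (Real.exp_pos _).le
          exact mul_le_mul_of_nonneg_left hζD (Real.exp_pos _).le
      _ = D / 2 * ((x + x ^ 3) * Real.exp (-(1 / 10) * x ^ 2 + x ^ 2 / 48)) := by
          rw [Real.exp_add]; ring
      _ ≤ D / 2 * ((x + x ^ 3) * Real.exp (-(1 / 13) * x ^ 2)) := by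
          refine mul_le_mul_of_nonneg_left (mul_le_mul_of_nonneg_left
            (Real.exp_le_exp.mpr ?_) (by positivity)) (by positivity)
          nlinarith [sq_nonneg x]
  have hdi : ‖∫ x in (0:ℝ)..R, (f x - g x)‖ ≤ 200 * D := by
    refine le_trans (intervalIntegral.norm_integral_le_of_norm_le hR0.le ?_
      (Continuous.intervalIntegrable (by fun_prop) _ _)) (diff_int D R hD0)
    filter_upwards with x hx
    exact hdiff x hx.1.le hx.2
  have hsub : ∫ x in (0:ℝ)..R, (f x - g x) = (∫ x in (0:ℝ)..R, f x) - ∫ x in (0:ℝ)..R, g x :=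
    intervalIntegral.integral_sub (hfc.intervalIntegrable _ _) (hgc.intervalIntegrable _ _)
  have hscale : ∫ x in (0:ℝ)..R, f x = q • ∫ τ in (0:ℝ)..ρ, ∏ k, (1 - (τ : ℂ) * l k) := by
    have := intervalIntegral.integral_comp_div (a := 0) (b := R)
      (fun τ : ℝ => ∏ k, (1 - (τ : ℂ) * l k)) hq0.ne'
    rw [zero_div, hRdef, mul_div_cancel_left₀ _ hq0.ne'] at this
    exact this
  have hfin : q * ‖∫ τ in (0:ℝ)..ρ, ∏ k, (1 - (τ : ℂ) * l k)‖ = ‖∫ x in (0:ℝ)..R, f x‖ := by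
    rw [hscale, norm_smul, Real.norm_of_nonneg hq0.le]
  rw [hfin]
  rw [hsplit] at hmain
  have n1 := norm_add_le (∫ x in (0:ℝ)..R, g x) (∫ x in Ioi R, g x)
  have n2 : ‖∫ x in (0:ℝ)..R, g x‖ ≤ ‖∫ x in (0:ℝ)..R, f x‖ + ‖∫ x in (0:ℝ)..R, (f x - g x)‖ := by
    rw [hsub]
    have := norm_sub_le (∫ x in (0:ℝ)..R, f x) ((∫ x in (0:ℝ)..R, f x) - ∫ x in (0:ℝ)..R, g x)
    rwa [sub_sub_cancel] at this
  linarith

end Pool.Agent.H351.BV
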